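import Mathlib

/-!
# Levels of a strong limit cardinal of countable cofinality
-/

namespace Pool.Agent.H65R3.Data

open Cardinal Ordinal Set Order

variable {κ : Cardinal.{0}}

theorem mk_Iio_lt' (i : κ.ord.ToType) : #(Iio i) < κ := by
  simpa using mk_Iio_lt i

/-- the element of rank `c.ord` -/
theorem exists_el {c : Cardinal.{0}} (h : c < κ) :
    ∃ a : κ.ord.ToType, #(Iio a) = c ∧ ∀ x, x < a ↔ #(Iio x) < c := by
  have h' : c.ord < κ.ord := ord_lt_ord.2 h
  have hty : c.ord < Ordinal.type (α := κ.ord.ToType) (· < ·) := by rwa [type_toType]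
  obtain ⟨a, ha⟩ : ∃ a : κ.ord.ToType, typein (α := κ.ord.ToType) (· < ·) a = c.ord :=
    typein_surj _ hty
  have h3 : ∀ x : κ.ord.ToType, #(Iio x) = (typein (α := κ.ord.ToType) (· < ·) x).card :=
    fun x => rfl
  refine ⟨a, ?_, ?_⟩
  · rw [h3, ha, card_ord]
  · intro x
    rw [h3, ← lt_ord, ← ha]
    exact (typein_lt_typein (α := κ.ord.ToType) (· < ·)).symm

/-- The level structure. -/
structure Lev (κ : Cardinal.{0}) where
  lev : κ.ord.ToType → ℕ
  μ : ℕ → Cardinal.{0}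
  b : ℕ → κ.ord.ToType
  aleph0_le : ∀ n, ℵ₀ ≤ μ n
  lt : ∀ n, μ n < κ
  mono : Monotone μ
  cof : ∀ c < κ, ∃ n, c ≤ μ n
  big : ∀ n, 2 ^ μ n < #{x // lev x = n}
  small : ∀ n, #{x // lev x ≤ n} < κ
  bsmall : ∀ n, #(Iic (b n)) ≤ μ n
  bcof : ∀ j, ∃ N, ∀ n ≥ N, j ≤ b n

theorem exists_lev (h1 : ℵ₀ < κ) (h2 : IsStrongLimit κ) (h3 : κ.ord.cof = ℵ₀) :
    Nonempty (Lev κ) := by
  classical
  obtain ⟨s, hs, hs'⟩ := Order.exists_cof_eq κ.ord.ToType
  rw [cof_toType, h3] at hs'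
  have hsc : s.Countable := by
    rw [← le_aleph0_iff_set_countable]; exact hs'.le
  have hsn : s.Nonempty := by
    rw [nonempty_iff_ne_empty]
    rintro rfl
    rw [mk_eq_zero] at hs'
    exact aleph0_ne_zero hs'.symm
  obtain ⟨a, ha⟩ := hsc.exists_eq_range hsn
  -- the cardinals
  let F : ℕ → Cardinal.{0} → Cardinal.{0} := fun n c => succ (max (2 ^ c) #(Iio (a n)))
  let ν : ℕ → Cardinal.{0} := fun n => Nat.rec ℵ₀ F n
  have hν0 : ν 0 = ℵ₀ := rfl
  have hνs : ∀ n, ν (n+1) = succ (max (2 ^ ν n) #(Iio (a n))) := fun n => rfl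
  have hνlt : ∀ n, ν n < κ := by
    intro n
    induction n with
    | zero => rw [hν0]; exact h1
    | succ n ih =>
      rw [hνs]
      exact h2.isSuccLimit.succ_lt (max_lt (h2.isStrongPrelimit ih) (mk_Iio_lt' (a n)))
  have hpow : ∀ n, 2 ^ ν n < ν (n+1) := by
    intro n
    rw [hνs]
    exact lt_of_le_of_lt (le_max_left _ _) (lt_succ _)
  have hmono : StrictMono ν := strictMono_nat_of_lt_succ fun n =>
    (cantor _).trans (hpow n)
  have haleph : ∀ n, ℵ₀ ≤ ν n := fun n => hν0 ▸ hmono.monotone (Nat.zero_le n)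
  have hcof : ∀ c < κ, ∃ n, c ≤ ν n := by
    intro c hc
    obtain ⟨x, hx, -⟩ := exists_el hc
    obtain ⟨y, hy, hxy⟩ := hs x
    rw [ha] at hy
    obtain ⟨n, rfl⟩ := hy
    refine ⟨n+1, ?_⟩
    rw [hνs, ← hx]
    refine le_trans ?_ (le_succ _)
    refine le_trans ?_ (le_max_right _ _)
    exact mk_le_mk_of_subset (Iio_subset_Iio hxy)
  choose e he he' using fun n => exists_el (hνlt n)
  have hex : ∀ x : κ.ord.ToType, ∃ n, x < e (n+1) := by
    intro x
    obtain ⟨n, hn⟩ := hcof _ (mk_Iio_lt' x)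
    exact ⟨n, (he' _ _).2 (lt_of_le_of_lt hn (hmono (Nat.lt_succ_self n)))⟩
  have hemono : StrictMono e := by
    intro m n hmn
    rw [he', he]
    exact hmono hmn
  let lev : κ.ord.ToType → ℕ := fun x => Nat.find (hex x)
  have hlev : ∀ x n, lev x ≤ n ↔ x < e (n+1) := by
    intro x n
    constructor
    · intro h
      exact lt_of_lt_of_le (Nat.find_spec (hex x)) (hemono.monotone (Nat.succ_le_succ h))
    · intro h
      exact Nat.find_min' (hex x) h
  refine ⟨⟨lev, ν, e, haleph, hνlt, hmono.monotone, hcof, ?_, ?_, ?_, ?_⟩⟩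
  · intro n
    by_contra hcon
    rw [not_lt] at hcon
    have hsub : Iio (e (n+1)) ⊆ {x | lev x = n} ∪ Iio (e n) := by
      intro x hx
      have h := (hlev x n).2 hx
      rcases h.lt_or_eq with h | h
      · right
        obtain ⟨m, rfl⟩ : ∃ m, n = m + 1 := ⟨n - 1, by omega⟩
        exact (hlev x m).1 (by omega)
      · left; exact h
    have h4 : ν (n+1) ≤ 2 ^ ν n := by
      calc ν (n+1) = #(Iio (e (n+1))) := (he (n+1)).symm
        _ ≤ #(({x | lev x = n} ∪ Iio (e n) : Set κ.ord.ToType)) := mk_le_mk_of_subset hsub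
        _ ≤ #({x | lev x = n} : Set κ.ord.ToType) + #(Iio (e n)) := mk_union_le _ _
        _ ≤ 2 ^ ν n + 2 ^ ν n := add_le_add hcon (by rw [he]; exact (cantor _).le)
        _ = 2 ^ ν n := add_eq_self ((haleph n).trans (cantor _).le)
    exact absurd (hpow n) (not_lt.2 h4)
  · intro n
    have : #{x // lev x ≤ n} = ν (n+1) := by
      rw [← he (n+1)]
      exact congrArg (fun s : Set κ.ord.ToType => #s) (Set.ext fun x => hlev x n)
    rw [this]
    exact hνlt (n+1)
  · intro n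
    calc #(Iic (e n)) = #((insert (e n) (Iio (e n)) : Set κ.ord.ToType)) := by
          rw [Iio_insert]
      _ ≤ #(Iio (e n)) + 1 := mk_insert_le
      _ = ν n + 1 := by rw [he]
      _ = ν n := add_one_eq (haleph n)
  · intro j
    obtain ⟨n, hn⟩ := hex j
    exact ⟨n+1, fun m hm => hn.le.trans (hemono.monotone hm)⟩

theorem exists_card : ∃ κ : Cardinal.{0}, ℵ₀ < κ ∧ IsStrongLimit κ ∧ κ.ord.cof = ℵ₀ := by
  refine ⟨ℶ_ ω, ?_, ?_, ?_⟩
  · rw [← beth_zero]
    exact beth_strictMono omega0_pos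
  · exact isStrongLimit_beth.2 isSuccLimit_omega0.isSuccPrelimit
  · have hn : Order.IsNormal fun o : Ordinal.{0} => (ℶ_ o).ord := isNormal_ord.comp isNormal_beth
    rw [cof_map_of_isNormal hn isSuccLimit_omega0, cof_omega0]

end Pool.Agent.H65R3.Data
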