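import Mathlib
import Pool.Agent.H65R3.Forc
import Pool.Agent.H65R3.Data

/-!
# Reduced products of chain closed posets
-/

namespace Pool.Agent.H65R3.RProd

open Cardinal Set Filter Forc Data

/-- The conditions of the reduced product of the sequence `Q` of posets. -/
def RP (Q : ℕ → Type) : Type := ∀ n, Q n

/-- `q ≤ p` iff `q n ≤ p n` for all but finitely many `n`. -/
instance instPreorderRP (Q : ℕ → Type) [∀ n, Preorder (Q n)] : Preorder (RP Q) where
  le q p := ∀ᶠ n in atTop, q n ≤ p n
  le_refl _ := Eventually.of_forall fun _ => le_rfl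
  le_trans a b c h1 h2 := by
    filter_upwards [h1, h2] with n h1 h2 using h1.trans h2

theorem rp_le_iff {Q : ℕ → Type} [∀ n, Preorder (Q n)] {q p : RP Q} :
    q ≤ p ↔ ∀ᶠ n in atTop, q n ≤ p n := Iff.rfl

theorem rp_le_of_forall {Q : ℕ → Type} [∀ n, Preorder (Q n)] {q p : RP Q}
    (h : ∀ n, q n ≤ p n) : q ≤ p := Eventually.of_forall h

/-- Every nonempty chain of size at most `μ` has a lower bound. -/
def ChainClosed (Q : Type) [Preorder Q] (μ : Cardinal.{0}) : Prop :=
  ∀ C : Set Q, C.Nonempty → IsChain (· ≤ ·) C → #C ≤ μ → ∃ q, ∀ c ∈ C, q ≤ c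

variable {κ : Cardinal.{0}}

theorem distrib (L : Lev κ) (Q : ℕ → Type) [∀ n, Preorder (Q n)]
    (hQ : ∀ n, ChainClosed (Q n) (L.μ n)) (D : κ.ord.ToType → Set (RP Q))
    (hD : ∀ i, Down (D i)) (p0 : RP Q) (hdense : ∀ i, ∀ q ≤ p0, ∃ r ≤ q, r ∈ D i) :
    ∃ q ≤ p0, ∀ i, q ∈ D i := by
  classical
  have step : ∀ (j : κ.ord.ToType) (g : κ.ord.ToType → RP Q), ∃ v : RP Q, v ∈ D j ∧
      (∀ n, v n ≤ p0 n) ∧
      ∀ n, (∃ q ≤ p0 n, ∀ i < j, q ≤ g i n) → ∀ i < j, v n ≤ g i n := by
    intro j g
    let l : RP Q := fun n => if h : ∃ q ≤ p0 n, ∀ i < j, q ≤ g i n then h.choose else p0 n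
    have hl : ∀ n, l n ≤ p0 n := by
      intro n
      by_cases h : ∃ q ≤ p0 n, ∀ i < j, q ≤ g i n
      · simp only [l, dif_pos h]; exact h.choose_spec.1
      · simp only [l, dif_neg h]; exact le_rfl
    have hl2 : ∀ n, (∃ q ≤ p0 n, ∀ i < j, q ≤ g i n) → ∀ i < j, l n ≤ g i n := by
      intro n h
      simp only [l, dif_pos h]; exact h.choose_spec.2
    obtain ⟨r, hrl, hrD⟩ := hdense j l (rp_le_of_forall hl)
    let v : RP Q := fun n => if r n ≤ l n then r n else l n
    have hvl : ∀ n, v n ≤ l n := by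
      intro n
      by_cases h : r n ≤ l n
      · simp only [v, if_pos h]; exact h
      · simp only [v, if_neg h]; exact le_rfl
    refine ⟨v, hD j r hrD v ?_, fun n => (hvl n).trans (hl n), fun n h i hi =>
      (hvl n).trans (hl2 n h i hi)⟩
    filter_upwards [hrl] with n hn
    simp only [v, if_pos hn]; exact le_rfl
  choose v hv1 hv2 hv3 using step
  let f : κ.ord.ToType → RP Q := wellFounded_lt.fix
    (fun j ih => v j (fun i => if h : i < j then ih i h else p0))
  have hf : ∀ j, f j = v j (fun i => if i < j then f i else p0) := by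
    intro j
    have h := WellFounded.fix_eq (C := fun _ : κ.ord.ToType => RP Q) wellFounded_lt
      (fun j ih => v j (fun i => if h : i < j then ih i h else p0)) j
    exact h
  have hf1 : ∀ j, f j ∈ D j := fun j => by rw [hf]; exact hv1 _ _
  have hf2 : ∀ j n, f j n ≤ p0 n := fun j n => by rw [hf]; exact hv2 _ _ _
  have hf3 : ∀ j n, (∃ q ≤ p0 n, ∀ i < j, q ≤ f i n) → ∀ i < j, f j n ≤ f i n := by
    intro j n ⟨q, hq, hq'⟩ i hi
    have := hv3 j (fun i => if i < j then f i else p0) n
      ⟨q, hq, fun i hi => by simp only [if_pos hi]; exact hq' i hi⟩ i hi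
    simp only [if_pos hi] at this
    rw [hf j]
    exact this
  have inv : ∀ j n, #(Iic j) ≤ L.μ n → ∀ i < j, f j n ≤ f i n := by
    intro j
    induction j using WellFoundedLT.induction with
    | _ j ih =>
      intro n hn
      apply hf3
      let C : Set (Q n) := insert (p0 n) ((fun i => f i n) '' Iio j)
      have hC1 : C.Nonempty := ⟨p0 n, mem_insert _ _⟩
      have hmono : ∀ i i', i < i' → i' < j → f i' n ≤ f i n := by
        intro i i' h1 h2
        exact ih i' h2 n ((mk_le_mk_of_subset (Iic_subset_Iic.2 h2.le)).trans hn) i h1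
      have hC2 : IsChain (· ≤ ·) C := by
        apply IsChain.insert
        · rintro _ ⟨i, hi, rfl⟩ _ ⟨i', hi', rfl⟩ hne
          rcases lt_trichotomy i i' with h | h | h
          · right; exact hmono i i' h hi'
          · subst h; exact absurd rfl hne
          · left; exact hmono i' i h hi
        · rintro _ ⟨i, hi, rfl⟩ _
          right; exact hf2 i n
      have hC3 : #C ≤ L.μ n := by
        calc #C ≤ #((fun i => f i n) '' Iio j) + 1 := mk_insert_le
          _ ≤ #(Iio j) + 1 := by gcongr; exact mk_image_le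
          _ ≤ L.μ n + 1 := by
            gcongr
            exact (mk_le_mk_of_subset Iio_subset_Iic_self).trans hn
          _ = L.μ n := add_one_eq (L.aleph0_le n)
      obtain ⟨q, hq⟩ := hQ n C hC1 hC2 hC3
      exact ⟨q, hq _ (mem_insert _ _), fun i hi => hq _ (mem_insert_of_mem _ ⟨i, hi, rfl⟩)⟩
  refine ⟨fun n => f (L.b n) n, rp_le_of_forall fun n => hf2 _ _, fun i => ?_⟩
  refine hD i _ (hf1 i) _ ?_
  obtain ⟨N, hN⟩ := L.bcof i
  filter_upwards [eventually_ge_atTop N] with n hn
  rcases (hN n hn).lt_or_eq with h | h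
  · exact inv _ n (L.bsmall n) i h
  · rw [← h]

end Pool.Agent.H65R3.RProd
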