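import Mathlib
import Pool.Agent.H65R3.RProd

/-!
# Partial permutations with side conditions
-/

namespace Pool.Agent.H65R3.CondP

open Cardinal Set RProd

/-- A condition: a permutation `F` of `X` supported by the set `S` together with a set `A` of
subsets of `X`; the sets `S` and `A` have size at most `μ`. -/
structure Cond (X : Type) (μ : Cardinal.{0}) where
  F : Equiv.Perm X
  S : Set X
  A : Set (Set X)
  hS : #S ≤ μ
  hA : #A ≤ μ
  fix : ∀ x, x ∉ S → F x = x

variable {X : Type} {μ : Cardinal.{0}}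

/-- `q` extends `p`: it agrees with `p` on the support of `p`, and on the new part of its support
it respects the sets in `p.A`. -/
def Ext (q p : Cond X μ) : Prop :=
  p.S ⊆ q.S ∧ (∀ x ∈ p.S, q.F x = p.F x) ∧ p.A ⊆ q.A ∧
    ∀ a ∈ p.A, ∀ x ∈ q.S, x ∉ p.S → (x ∈ a ↔ q.F x ∈ a)

instance instPreorderCond : Preorder (Cond X μ) where
  le := Ext
  le_refl p := ⟨Subset.rfl, fun _ _ => rfl, Subset.rfl, fun _ _ x hx hx' => absurd hx hx'⟩
  le_trans r q p h1 h2 := by
    obtain ⟨a1, a2, a3, a4⟩ := h1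
    obtain ⟨b1, b2, b3, b4⟩ := h2
    refine ⟨b1.trans a1, fun x hx => (a2 x (b1 hx)).trans (b2 x hx), b3.trans a3, ?_⟩
    intro a ha x hx hx'
    by_cases hq : x ∈ q.S
    · rw [a2 x hq]; exact b4 a ha x hq hx'
    · exact a4 a (b3 ha) x hx hq

theorem le_def {q p : Cond X μ} : q ≤ p ↔ p.S ⊆ q.S ∧ (∀ x ∈ p.S, q.F x = p.F x) ∧ p.A ⊆ q.A ∧
    ∀ a ∈ p.A, ∀ x ∈ q.S, x ∉ p.S → (x ∈ a ↔ q.F x ∈ a) := Iff.rfl

theorem Cond.mem_iff (p : Cond X μ) (x : X) : p.F x ∈ p.S ↔ x ∈ p.S := by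
  constructor
  · intro h
    by_contra hx
    rw [p.fix x hx] at h
    exact hx h
  · intro h
    by_contra hx
    have := p.fix _ hx
    have h2 := p.F.injective this
    rw [h2] at hx
    exact hx h

theorem Cond.symm_fix (p : Cond X μ) (x : X) (h : x ∉ p.S) : p.F.symm x = x := by
  rw [Equiv.symm_apply_eq, p.fix x h]

/-- the image of `a` -/
def img (p : Cond X μ) (a : Set X) : Set X := {y | p.F.symm y ∈ a}

theorem mem_img {p : Cond X μ} {a : Set X} {y : X} : y ∈ img p a ↔ p.F.symm y ∈ a := Iff.rfl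

theorem img_eq {q p : Cond X μ} (h : q ≤ p) {a : Set X} (ha : a ∈ p.A) : img q a = img p a := by
  obtain ⟨h1, h2, h3, h4⟩ := le_def.1 h
  ext y
  obtain ⟨x, rfl⟩ := q.F.surjective y
  rw [mem_img, mem_img, Equiv.symm_apply_apply]
  by_cases hx : x ∈ p.S
  · rw [h2 x hx, Equiv.symm_apply_apply]
  · have hy : q.F x ∉ p.S := by
      intro hy
      have h5 : p.F.symm (q.F x) ∈ p.S := by
        rw [← p.mem_iff, Equiv.apply_symm_apply]; exact hy
      have h6 := h2 _ h5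
      rw [Equiv.apply_symm_apply] at h6
      have h7 := q.F.injective h6
      rw [h7] at h5
      exact hx h5
    rw [p.symm_fix _ hy]
    by_cases hxq : x ∈ q.S
    · exact h4 a ha x hxq hx
    · rw [q.fix x hxq]

/-- add a set to the side condition -/
def addA (hμ : ℵ₀ ≤ μ) (p : Cond X μ) (a : Set X) : Cond X μ where
  F := p.F
  S := p.S
  A := insert a p.A
  hS := p.hS
  hA := by
    calc #(insert a p.A : Set (Set X)) ≤ #p.A + 1 := mk_insert_le
      _ ≤ μ + 1 := by gcongr; exact p.hA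
      _ = μ := add_one_eq hμ
  fix := p.fix

theorem addA_le (hμ : ℵ₀ ≤ μ) (p : Cond X μ) (a : Set X) : addA hμ p a ≤ p :=
  le_def.2 ⟨Subset.rfl, fun _ _ => rfl, subset_insert _ _, fun _ _ _ hx hx' => absurd hx hx'⟩

theorem mem_addA (hμ : ℵ₀ ≤ μ) (p : Cond X μ) (a : Set X) : a ∈ (addA hμ p a).A :=
  mem_insert _ _

theorem chainClosed (hμ : ℵ₀ ≤ μ) : ChainClosed (Cond X μ) μ := by
  classical
  intro C hC hch hcard
  have hcomp : ∀ c ∈ C, ∀ d ∈ C, c ≤ d ∨ d ≤ c := by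
    intro c hc d hd
    by_cases h : c = d
    · subst h; left; exact le_rfl
    · exact hch hc hd h
  have hFeq : ∀ c ∈ C, ∀ d ∈ C, ∀ x ∈ c.S, x ∈ d.S → c.F x = d.F x := by
    intro c hc d hd x hxc hxd
    rcases hcomp c hc d hd with h | h
    · exact h.2.1 x hxd
    · exact (h.2.1 x hxc).symm
  let fwd : X → X := fun x => if h : ∃ c ∈ C, x ∈ c.S then h.choose.F x else x
  let bwd : X → X := fun x => if h : ∃ c ∈ C, x ∈ c.S then h.choose.F.symm x else x
  have hfwd : ∀ c ∈ C, ∀ x ∈ c.S, fwd x = c.F x := by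
    intro c hc x hx
    have h : ∃ c ∈ C, x ∈ c.S := ⟨c, hc, hx⟩
    simp only [fwd, dif_pos h]
    exact hFeq _ h.choose_spec.1 _ hc x h.choose_spec.2 hx
  have hsymm : ∀ (c : Cond X μ), ∀ x ∈ c.S, c.F.symm x ∈ c.S := by
    intro c x hx
    rw [← c.mem_iff, Equiv.apply_symm_apply]; exact hx
  have hbwd : ∀ c ∈ C, ∀ x ∈ c.S, bwd x = c.F.symm x := by
    intro c hc x hx
    have h : ∃ c ∈ C, x ∈ c.S := ⟨c, hc, hx⟩
    simp only [bwd, dif_pos h]
    have hdC := h.choose_spec.1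
    have hdS := h.choose_spec.2
    generalize h.choose = d at hdC hdS
    -- both contain x
    rcases hcomp c hc d hdC with h' | h'
    · have := h'.2.1 _ (hsymm d x hdS)
      rw [Equiv.apply_symm_apply] at this
      rw [Equiv.eq_symm_apply, this]
    · have := h'.2.1 _ (hsymm c x hx)
      rw [Equiv.apply_symm_apply] at this
      rw [Equiv.symm_apply_eq, this]
  have hfn : ∀ x, (¬ ∃ c ∈ C, x ∈ c.S) → fwd x = x := by
    intro x h
    simp only [fwd, dif_neg h]
  have hbn : ∀ x, (¬ ∃ c ∈ C, x ∈ c.S) → bwd x = x := by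
    intro x h
    simp only [bwd, dif_neg h]
  let F : Equiv.Perm X :=
    { toFun := fwd
      invFun := bwd
      left_inv := by
        intro x
        by_cases h : ∃ c ∈ C, x ∈ c.S
        · obtain ⟨c, hc, hx⟩ := h
          rw [hfwd c hc x hx, hbwd c hc _ ((c.mem_iff x).2 hx), Equiv.symm_apply_apply]
        · rw [hfn x h, hbn x h]
      right_inv := by
        intro x
        by_cases h : ∃ c ∈ C, x ∈ c.S
        · obtain ⟨c, hc, hx⟩ := h
          rw [hbwd c hc x hx, hfwd c hc _ (hsymm c x hx), Equiv.apply_symm_apply]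
        · rw [hbn x h, hfn x h] }
  have hF : ∀ x, F x = fwd x := fun x => rfl
  refine ⟨{ F := F, S := ⋃ c ∈ C, c.S, A := ⋃ c ∈ C, c.A, hS := ?_, hA := ?_, fix := ?_ }, ?_⟩
  · calc #(⋃ c ∈ C, c.S : Set X) ≤ #C * ⨆ c : C, #(c.1.S) := mk_biUnion_le _ _
      _ ≤ μ * μ := mul_le_mul' hcard (ciSup_le' fun c => c.1.hS)
      _ = μ := mul_eq_self hμ
  · calc #(⋃ c ∈ C, c.A : Set (Set X)) ≤ #C * ⨆ c : C, #(c.1.A) := mk_biUnion_le _ _
      _ ≤ μ * μ := mul_le_mul' hcard (ciSup_le' fun c => c.1.hA)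
      _ = μ := mul_eq_self hμ
  · intro x hx
    rw [hF]
    apply hfn
    rintro ⟨c, hc, hxc⟩
    exact hx (mem_biUnion hc hxc)
  · intro c hc
    refine le_def.2 ⟨subset_biUnion_of_mem (u := fun c : Cond X μ => c.S) hc,
      fun x hx => by rw [hF]; exact hfwd c hc x hx,
      subset_biUnion_of_mem (u := fun c : Cond X μ => c.A) hc, ?_⟩
    intro a ha x hx hxc
    obtain ⟨d, hd, hxd⟩ := mem_iUnion₂.1 hx
    rw [hF, hfwd d hd x hxd]
    rcases hcomp c hc d hd with h | h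
    · exact absurd (h.1 hxd) hxc
    · exact h.2.2.2 a ha x hxd hxc

theorem exists_pairs (hμ : ℵ₀ ≤ μ) (hX : 2 ^ μ < #X) (q : Cond X μ) (ι : Type) (hι : #ι = μ) :
    ∃ g : ι ⊕ ι ↪ X, (∀ z, g z ∉ q.S) ∧
      ∀ i, ∀ a ∈ q.A, (g (Sum.inl i) ∈ a ↔ g (Sum.inr i) ∈ a) := by
  classical
  let Y : Type := {x : X // x ∉ q.S}
  let c : Y → Set q.A := fun y => {a | y.1 ∈ a.1}
  have hle : μ ≤ 2 ^ μ := (cantor μ).le
  have hinf : ℵ₀ ≤ 2 ^ μ := hμ.trans hle
  have hY : ¬ #Y ≤ 2 ^ μ := by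
    intro h
    have h1 : #X ≤ 2 ^ μ := by
      calc #X = #(univ : Set X) := mk_univ.symm
        _ = #(q.S ∪ q.Sᶜ : Set X) := by rw [union_compl_self]
        _ ≤ #q.S + #(q.Sᶜ : Set X) := mk_union_le _ _
        _ ≤ 2 ^ μ + 2 ^ μ := add_le_add (q.hS.trans hle) h
        _ = 2 ^ μ := add_eq_self hinf
    exact absurd hX (not_lt.2 h1)
  have hex : ∃ t : Set q.A, #(ι ⊕ ι) ≤ #{y : Y // c y = t} := by
    by_contra hcon
    push Not at hcon
    apply hY
    have h1 : #(ι ⊕ ι) = μ := by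
      rw [mk_sum, lift_id, hι, add_eq_self hμ]
    calc #Y = #(Σ t : Set q.A, {y : Y // c y = t}) := (mk_congr (Equiv.sigmaFiberEquiv c)).symm
      _ = sum fun t : Set q.A => #{y : Y // c y = t} := mk_sigma _
      _ ≤ sum fun _ : Set q.A => μ := sum_le_sum _ _ fun t => (h1 ▸ hcon t).le
      _ = #(Set q.A) * μ := by rw [sum_const, lift_id, lift_id]
      _ ≤ 2 ^ μ * 2 ^ μ := by
          refine mul_le_mul' ?_ hle
          rw [mk_set]
          exact power_le_power_left two_ne_zero q.hA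
      _ = 2 ^ μ := mul_eq_self hinf
  obtain ⟨t, ht⟩ := hex
  obtain ⟨e⟩ := (Cardinal.le_def _ _).1 ht
  refine ⟨⟨fun z => (e z).1.1, ?_⟩, fun z => (e z).1.2, ?_⟩
  · intro z z' h
    exact e.injective (Subtype.ext (Subtype.ext h))
  · intro i a ha
    have h1 := (e (Sum.inl i)).2
    have h2 := (e (Sum.inr i)).2
    have h3 : c (e (Sum.inl i)).1 = c (e (Sum.inr i)).1 := h1.trans h2.symm
    have h4 : (⟨a, ha⟩ : q.A) ∈ c (e (Sum.inl i)).1 ↔ (⟨a, ha⟩ : q.A) ∈ c (e (Sum.inr i)).1 := by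
      rw [h3]
    exact h4

open Classical in
/-- the map exchanging the two copies of the members of `T` -/
noncomputable def swf {ι : Type} (T : Set ι) : ι ⊕ ι → ι ⊕ ι :=
  Sum.elim (fun i => if i ∈ T then Sum.inr i else Sum.inl i)
    (fun i => if i ∈ T then Sum.inl i else Sum.inr i)

theorem swf_inv {ι : Type} (T : Set ι) : Function.Involutive (swf T) := by
  rintro (i | i) <;> by_cases h : i ∈ T <;> simp [swf, h]

/-- the involution exchanging the two copies of the members of `T` -/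
noncomputable def swp {ι : Type} (T : Set ι) : Equiv.Perm (ι ⊕ ι) := (swf_inv T).toPerm

theorem swp_apply {ι : Type} (T : Set ι) (z : ι ⊕ ι) : swp T z = swf T z := rfl

theorem swp_inl_of_mem {ι : Type} {T : Set ι} {i : ι} (h : i ∈ T) :
    swp T (Sum.inl i) = Sum.inr i := by
  simp [swp_apply, swf, h]

theorem swp_inr_of_mem {ι : Type} {T : Set ι} {i : ι} (h : i ∈ T) :
    swp T (Sum.inr i) = Sum.inl i := by
  simp [swp_apply, swf, h]

theorem swp_inl_of_not {ι : Type} {T : Set ι} {i : ι} (h : i ∉ T) :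
    swp T (Sum.inl i) = Sum.inl i := by
  simp [swp_apply, swf, h]

theorem swp_inr_of_not {ι : Type} {T : Set ι} {i : ι} (h : i ∉ T) :
    swp T (Sum.inr i) = Sum.inr i := by
  simp [swp_apply, swf, h]

theorem exists_swap (hμ : ℵ₀ ≤ μ) (q : Cond X μ) {ι : Type} (hι : #ι = μ) (g : ι ⊕ ι ↪ X)
    (hg : ∀ z, g z ∉ q.S) (hg' : ∀ i, ∀ a ∈ q.A, (g (Sum.inl i) ∈ a ↔ g (Sum.inr i) ∈ a))
    (T : Set ι) (a : Set X) :
    ∃ r : Cond X μ, r ≤ q ∧ a ∈ r.A ∧ (∀ i ∈ T, r.F (g (Sum.inr i)) = g (Sum.inl i)) ∧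
      ∀ i ∉ T, r.F (g (Sum.inl i)) = g (Sum.inl i) := by
  classical
  let τ : Equiv.Perm X := (swp T).viaEmbedding g
  have hτ : ∀ z, τ (g z) = g (swp T z) := fun z => Equiv.Perm.viaEmbedding_apply _ _ _
  have hτ' : ∀ x, x ∉ range g → τ x = x := fun x hx =>
    Equiv.Perm.viaEmbedding_apply_of_notMem _ _ _ hx
  have hF : ∀ z, q.F (τ (g z)) = g (swp T z) := by
    intro z
    rw [hτ, q.fix _ (hg _)]
  refine ⟨{ F := q.F * τ
            S := q.S ∪ range g
            A := insert a q.A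
            hS := ?_
            hA := ?_
            fix := ?_ }, ?_, mem_insert _ _, ?_, ?_⟩
  · calc #(q.S ∪ range g : Set X) ≤ #q.S + #(range g) := mk_union_le _ _
      _ ≤ μ + μ := by
        refine add_le_add q.hS (mk_range_le.trans ?_)
        rw [mk_sum, lift_id, hι, add_eq_self hμ]
      _ = μ := add_eq_self hμ
  · calc #(insert a q.A : Set (Set X)) ≤ #q.A + 1 := mk_insert_le
      _ ≤ μ + 1 := by gcongr; exact q.hA
      _ = μ := add_one_eq hμ
  · intro x hx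
    rw [mem_union, not_or] at hx
    rw [Equiv.Perm.mul_apply, hτ' x hx.2, q.fix x hx.1]
  · refine CondP.le_def.2 ⟨subset_union_left, ?_, subset_insert _ _, ?_⟩
    · intro x hx
      show q.F (τ x) = q.F x
      rw [hτ' x]
      rintro ⟨z, rfl⟩
      exact hg z hx
    · intro b hb x hx hx'
      obtain ⟨z, rfl⟩ : x ∈ range g := hx.resolve_left hx'
      show g z ∈ b ↔ q.F (τ (g z)) ∈ b
      rw [hF]
      rcases z with i | i
      · by_cases h : i ∈ T
        · rw [swp_inl_of_mem h]; exact hg' i b hb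
        · rw [swp_inl_of_not h]
      · by_cases h : i ∈ T
        · rw [swp_inr_of_mem h]; exact (hg' i b hb).symm
        · rw [swp_inr_of_not h]
  · intro i hi
    show q.F (τ (g (Sum.inr i))) = _
    rw [hF, swp_inr_of_mem hi]
  · intro i hi
    show q.F (τ (g (Sum.inl i))) = _
    rw [hF, swp_inl_of_not hi]

end Pool.Agent.H65R3.CondP
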