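import Mathlib
import Pool.Agent.H65R3.Forc

/-!
# The sentences about the extension

Throughout, `K κ` is the set of the ordinals below the initial ordinal of the cardinal `κ` of the
ground model, `P` is a forcing notion, and an element `p` of `P` belongs to a set defined below iff
it forces the sentence described in the comment.
-/

namespace Pool.Agent.H65R3.Lang

open Cardinal Forc

/-- The set of the ordinals below `κ`. -/
abbrev K (κ : Cardinal.{0}) : Type := κ.ord.ToType

variable {P : Type} [Preorder P] {κ : Cardinal.{0}}

/-- A name for a subset of `κ`; it names the set of those `x` for which the generic filter meets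
the set of conditions attached to `x`. -/
abbrev SetName (P : Type) (κ : Cardinal.{0}) : Type := K κ → Set P

/-- A name for a set of pairs of subsets of `κ`: with the pair of the names `A` and `B` it
associates a set of conditions, and the pair of the sets named by `A` and `B` belongs to the named
relation if the generic filter meets that set. -/
abbrev RelName (P : Type) (κ : Cardinal.{0}) : Type := SetName P κ → SetName P κ → Set P

/-- `x` belongs to the set named by `A`. -/
def Mem (A : SetName P κ) (x : K κ) : Set P := meets (A x)

/-- `A` and `B` name the same set. -/
def Same (A B : SetName P κ) : Set P := fall fun x => fiff (Mem A x) (Mem B x)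

/-- The pair of the sets named by `A` and `B` belongs to the relation named by `T`: this pair is
the pair of the sets named by some `A'` and `B'` such that the generic filter meets
`T A' B'`. -/
def Rel (T : RelName P κ) (A B : SetName P κ) : Set P :=
  fex fun A' : SetName P κ => fex fun B' : SetName P κ =>
    fand (meets (T A' B')) (fand (Same A A') (Same B B'))

/-- The set of all `x` in `κ` satisfying `φ x` has size less than `κ` (if `κ` is a cardinal of the
extension): for some `a < κ` there is a relation `R` on `κ` which relates every `x` satisfying
`φ x` to some `y < a`, and which relates no two different elements to the same `y`. -/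
def Small (κ : Cardinal.{0}) (φ : K κ → Set P) : Set P :=
  fex fun a : K κ => fex fun R : K κ → K κ → Set P =>
    fand
      (fall fun x => fimp (φ x) (fex fun y => fand (fground (y < a)) (meets (R x y))))
      (fall fun x => fall fun x' => fall fun y =>
        fimp (fand (meets (R x y)) (meets (R x' y))) (fground (x = x')))

/-- `κ` is a cardinal of the extension: for no `a < κ` is there an injection of `κ` into `a`. -/
def StaysCardinal (P : Type) [Preorder P] (κ : Cardinal.{0}) : Set P :=
  fnot (Small κ fun _ => fground True)

/-- The set of all `x` in `κ` satisfying `φ x` is included in the set of all `x` satisfying `ψ x`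
up to a set of size less than `κ`. -/
def AlmostSub (φ ψ : K κ → Set P) : Set P := Small κ fun x => fand (φ x) (fnot (ψ x))

/-- The relation named by `T` is the graph of an automorphism of the quotient of the power set of
`κ` by the ideal of the sets of size less than `κ`, lifted to the power set: every subset `A` of
`κ` is related to some subset `B`, to every subset `B` some `A` is related, and if `A` is related
to `B` and `A'` to `B'` then `A` is almost included in `A'` iff `B` is almost included in `B'`. -/
def IsAut (T : RelName P κ) : Set P :=
  fand
    (fand (fall fun A : SetName P κ => fex fun B : SetName P κ => Rel T A B)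
      (fall fun B : SetName P κ => fex fun A : SetName P κ => Rel T A B))
    (fall fun A : SetName P κ => fall fun A' : SetName P κ => fall fun B : SetName P κ =>
      fall fun B' : SetName P κ => fimp (fand (Rel T A B) (Rel T A' B'))
        (fiff (AlmostSub (Mem A) (Mem A')) (AlmostSub (Mem B) (Mem B'))))

/-- The relation named by `E` is a function from `X` to `Y`. -/
def IsFun {X Y : Type} (E : X → Y → Set P) : Set P :=
  fand (fall fun x => fex fun y => meets (E x y))
    (fall fun x => fall fun y => fall fun y' =>
      fimp (fand (meets (E x y)) (meets (E x y'))) (fground (y = y')))

/-- `x` belongs to the preimage of the set named by `A` under the function named by `E`. -/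
def Pre (E : K κ → K κ → Set P) (A : SetName P κ) (x : K κ) : Set P :=
  fex fun y => fand (meets (E x y)) (Mem A y)

/-- The automorphism given by the relation named by `T` is trivial: there is a function `e` from
`κ` to `κ` such that whenever `A` is related to `B`, then `B` and the preimage of `A` under `e`
differ only by a set of size less than `κ`. -/
def IsTrivial (T : RelName P κ) : Set P :=
  fex fun E : K κ → K κ → Set P =>
    fand (IsFun E)
      (fall fun A : SetName P κ => fall fun B : SetName P κ => fimp (Rel T A B)
        (fand (AlmostSub (Mem B) (Pre E A)) (AlmostSub (Pre E A) (Mem B))))

/-- In the extension, the quotient of the power set of `κ` by the ideal of the sets of size less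
than `κ` has a nontrivial automorphism. -/
def HasNontrivialAut (P : Type) [Preorder P] (κ : Cardinal.{0}) : Set P :=
  fex fun T : RelName P κ => fand (IsAut T) (fnot (IsTrivial T))

/-- Forcing with `P` adds no new function from `κ` to a set of the ground model: each condition
forcing that `R` names such a function has an extension deciding all its values. -/
def NoNewFunctions (P : Type) [Preorder P] (κ : Cardinal.{0}) : Prop :=
  ∀ (Y : Type) (R : K κ → Y → Set P) (p : P), p ∈ IsFun R →
    ∃ q ≤ p, ∃ f : K κ → Y, ∀ x, q ∈ meets (R x (f x))

end Pool.Agent.H65R3.Lang
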