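import Mathlib
import Pool.Agent.H65R3.Lang
import Pool.Agent.H65R3.Data

/-!
# Distributive forcing notions and the ideal of small sets
-/

namespace Pool.Agent.H65R3.Gen

open Cardinal Set Forc Data Lang

variable {κ : Cardinal.{0}} {P : Type} [Preorder P]

/-- `κ` many dense sets can be met simultaneously. -/
def Distr (P : Type) [Preorder P] (κ : Cardinal.{0}) : Prop :=
  ∀ (D : K κ → Set P), (∀ i, Down (D i)) → ∀ p0 : P,
    (∀ i, ∀ q ≤ p0, ∃ r ≤ q, r ∈ D i) → ∃ q ≤ p0, ∀ i, q ∈ D i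

/-- `p` decides that the set defined by `φ` is `X`. -/
def Decides (φ : K κ → Set P) (X : Set (K κ)) (p : P) : Prop :=
  ∀ x, (x ∈ X → p ∈ φ x) ∧ (x ∉ X → p ∈ fnot (φ x))

theorem Decides.mono {φ : K κ → Set P} {X : Set (K κ)} {p q : P} (hφ : ∀ x, Down (φ x))
    (h : Decides φ X p) (hq : q ≤ p) : Decides φ X q :=
  fun x => ⟨fun hx => hφ x _ ((h x).1 hx) _ hq, fun hx => down_fnot _ _ ((h x).2 hx) _ hq⟩

theorem Decides.mem_iff {φ : K κ → Set P} {X : Set (K κ)} {p : P} (h : Decides φ X p) {x : K κ} :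
    p ∈ φ x ↔ x ∈ X := by
  constructor
  · intro hp
    by_contra hx
    exact (h x).2 hx p le_rfl hp
  · exact (h x).1

theorem Decides.unique {φ : K κ → Set P} {X X' : Set (K κ)} {p : P} (h : Decides φ X p)
    (h' : Decides φ X' p) : X = X' := by
  ext x
  rw [← h.mem_iff, h'.mem_iff]

theorem exists_decides (hD : Distr P κ) (φ : K κ → Set P) (hφ : ∀ x, Down (φ x)) (p : P) :
    ∃ q ≤ p, ∃ X, Decides φ X q := by
  obtain ⟨q, hq, hq'⟩ := hD (fun x => {p | p ∈ φ x ∨ p ∈ fnot (φ x)})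
    (fun x r hr s hs => by
      rcases hr with hr | hr
      · left; exact hφ x r hr s hs
      · right; exact down_fnot _ r hr s hs) p
    (fun x q _ => by
      by_cases h : q ∈ fnot (φ x)
      · exact ⟨q, le_rfl, Or.inr h⟩
      · rw [mem_fnot] at h
        push Not at h
        obtain ⟨r, hr, hr'⟩ := h
        exact ⟨r, hr, Or.inl hr'⟩)
  exact ⟨q, hq, {x | q ∈ φ x}, fun x => ⟨fun h => h, fun h => (hq' x).resolve_left h⟩⟩

theorem mk_K : #(K κ) = κ := by simp [K]

theorem small_iff (hD : Distr P κ) {φ : K κ → Set P} {X : Set (K κ)} {p : P}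
    (hφ : ∀ x, Down (φ x)) (h : Decides φ X p) : p ∈ Small κ φ ↔ #X < κ := by
  classical
  constructor
  · intro hp
    obtain ⟨r, hr, a, ha⟩ := mem_fex.1 hp p le_rfl
    obtain ⟨s, hs, R, hR⟩ := mem_fex.1 ha r le_rfl
    have hsp : s ≤ p := hs.trans hr
    obtain ⟨t, ht, ht'⟩ := hD (fun x => {q | x ∈ X → ∃ y, y < a ∧ q ∈ meets (R x y)})
      (fun x q hq q' hq' hx => by
        obtain ⟨y, hy, hy'⟩ := hq hx
        exact ⟨y, hy, down_meets _ _ hy' _ hq'⟩) s
      (fun x q hq => by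
        by_cases hx : x ∈ X
        · obtain ⟨r', hr', hr''⟩ := (mem_fimp.1 (hR.1 x)) q hq
            (hφ x _ ((h x).1 hx) _ (hq.trans hsp))
          obtain ⟨u, hu, y, hy⟩ := mem_fex.1 hr'' r' le_rfl
          exact ⟨u, hu.trans hr', fun _ => ⟨y, hy.1, hy.2⟩⟩
        · exact ⟨q, le_rfl, fun h => absurd h hx⟩)
    choose f hf using fun x : X => ht' x.1 x.2
    have hinj : Function.Injective (fun x : X => (⟨f x, (hf x).1⟩ : Iio a)) := by
      intro x x' hxx
      have hxx' : f x = f x' := congrArg Subtype.val hxx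
      have h1 := hR.2 x.1 x'.1 (f x)
      obtain ⟨u, -, hu⟩ := mem_fimp.1 h1 t ht ⟨(hf x).2, by
        rw [hxx']; exact (hf x').2⟩
      exact Subtype.ext hu
    exact (mk_le_of_injective hinj).trans_lt (mk_Iio_lt' a)
  · intro hX
    obtain ⟨a, ha, -⟩ := exists_el hX
    obtain ⟨i⟩ := Cardinal.eq.1 ha
    let R : K κ → K κ → Set P := fun x y => {_q | ∃ h : x ∈ X, (i.symm ⟨x, h⟩).1 = y}
    have hRm : ∀ x y q, q ∈ meets (R x y) → ∃ h : x ∈ X, (i.symm ⟨x, h⟩).1 = y := by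
      intro x y q hq
      obtain ⟨r, _, s, hs, _⟩ := hq q le_rfl
      exact hs
    refine mem_fex_of_mem a (down_fex _) (mem_fex_of_mem R
      (down_fand (down_fall fun _ => down_fimp _ _)
        (down_fall fun _ => down_fall fun _ => down_fall fun _ => down_fimp _ _)) ⟨?_, ?_⟩)
    · intro x
      rw [mem_fimp]
      intro q hq hqx
      have hx : x ∈ X := by
        by_contra hx
        exact (h x).2 hx q hq hqx
      refine ⟨q, le_rfl, mem_fex_of_mem (i.symm ⟨x, hx⟩).1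
        (down_fand (down_fground _) (down_meets _)) ⟨(i.symm ⟨x, hx⟩).2, meets_of_mem ⟨hx, rfl⟩⟩⟩
    · intro x x' y
      rw [mem_fimp]
      rintro q hq ⟨h1, h2⟩
      obtain ⟨hx, hxy⟩ := hRm _ _ _ h1
      obtain ⟨hx', hxy'⟩ := hRm _ _ _ h2
      refine ⟨q, le_rfl, ?_⟩
      have := i.symm.injective (Subtype.ext (hxy.trans hxy'.symm))
      exact congrArg Subtype.val this

theorem down_Small (φ : K κ → Set P) : Down (Small κ φ) := down_fex _

theorem staysCardinal (hD : Distr P κ) (p : P) : p ∈ StaysCardinal P κ := by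
  intro q _ hq
  have h : Decides (κ := κ) (fun _ => fground (P := P) True) Set.univ q :=
    fun x => ⟨fun _ => trivial, fun hx => absurd (mem_univ x) hx⟩
  have h2 := (small_iff hD (fun _ => down_fground _) h).1 hq
  rw [mk_univ, mk_K] at h2
  exact lt_irrefl _ h2

theorem down_Mem (A : SetName P κ) (x : K κ) : Down (Mem A x) := down_meets _

theorem down_IsFun {X Y : Type} (E : X → Y → Set P) : Down (IsFun E) :=
  down_fand (down_fall fun _ => down_fex _)
    (down_fall fun _ => down_fall fun _ => down_fall fun _ => down_fimp _ _)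

theorem IsFun.unique {X Y : Type} {E : X → Y → Set P} {p : P} (h : p ∈ IsFun E)
    {x : X} {y y' : Y} (h1 : p ∈ meets (E x y)) (h2 : p ∈ meets (E x y')) : y = y' := by
  obtain ⟨r, _, hr⟩ := mem_fimp.1 (h.2 x y y') p le_rfl ⟨h1, h2⟩
  exact hr

theorem noNewFunctions (hD : Distr P κ) : NoNewFunctions P κ := by
  intro Y R p hp
  obtain ⟨q, hq, hq'⟩ := hD (fun x => {q | ∃ y, q ∈ meets (R x y)})
    (fun x r ⟨y, hy⟩ s hs => ⟨y, down_meets _ _ hy _ hs⟩) p
    (fun x q hq => mem_fex.1 (hp.1 x) q hq)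
  choose f hf using hq'
  exact ⟨q, hq, f, hf⟩

/-- the standard name of a ground model set -/
def chk (P : Type) [Preorder P] (X : Set (K κ)) : SetName P κ := fun x => {_p | x ∈ X}

theorem decides_chk (X : Set (K κ)) (p : P) : Decides (Mem (chk P X)) X p := by
  intro x
  refine ⟨fun hx => meets_of_mem hx, fun hx q _ hq => ?_⟩
  obtain ⟨r, _, s, hs, _⟩ := hq q le_rfl
  exact hx hs

theorem decides_sdiff {φ ψ : K κ → Set P} {X Y : Set (K κ)} {p : P}
    (hψ : ∀ x, Down (ψ x)) (h : Decides φ X p) (h' : Decides ψ Y p) :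
    Decides (fun x => fand (φ x) (fnot (ψ x))) (X \ Y) p := by
  intro x
  constructor
  · rintro ⟨hx, hy⟩
    exact ⟨(h x).1 hx, (h' x).2 hy⟩
  · intro hxy q hq hq'
    by_cases hx : x ∈ X
    · have hy : x ∈ Y := by
        by_contra hy
        exact hxy ⟨hx, hy⟩
      exact hq'.2 q le_rfl (hψ x _ ((h' x).1 hy) _ hq)
    · exact (h x).2 hx q hq hq'.1

theorem almostSub_iff (hD : Distr P κ) {φ ψ : K κ → Set P} {X Y : Set (K κ)} {p : P}
    (hφ : ∀ x, Down (φ x)) (hψ : ∀ x, Down (ψ x)) (h : Decides φ X p) (h' : Decides ψ Y p) :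
    p ∈ AlmostSub φ ψ ↔ #(X \ Y : Set (K κ)) < κ :=
  small_iff hD (fun x => down_fand (hφ x) (down_fnot _)) (decides_sdiff hψ h h')

theorem same_eq {A B : SetName P κ} {X Y : Set (K κ)} {p : P} (h : p ∈ Same A B)
    (hA : Decides (Mem A) X p) (hB : Decides (Mem B) Y p) : X = Y := by
  ext x
  constructor
  · intro hx
    by_contra hy
    obtain ⟨r, hr, hr'⟩ := mem_fimp.1 (h x).1 p le_rfl ((hA x).1 hx)
    exact (hB x).2 hy r hr hr'
  · intro hy
    by_contra hx
    obtain ⟨r, hr, hr'⟩ := mem_fimp.1 (h x).2 p le_rfl ((hB x).1 hy)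
    exact (hA x).2 hx r hr hr'

theorem same_refl (A : SetName P κ) (p : P) : p ∈ Same A A :=
  fun _ => ⟨mem_fimp.2 fun q _ h => ⟨q, le_rfl, h⟩, mem_fimp.2 fun q _ h => ⟨q, le_rfl, h⟩⟩

theorem down_Same (A B : SetName P κ) : Down (Same A B) := down_fall fun _ => down_fiff _ _

theorem down_Rel (T : RelName P κ) (A B : SetName P κ) : Down (Rel T A B) := down_fex _

/-- the name of the relation generated by the pairs of ground model sets `X`, `Y` such that the
generic filter meets `G X Y` -/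
def relOf (G : Set (K κ) → Set (K κ) → Set P) : RelName P κ := fun A B =>
  {p | ∃ X Y, Decides (Mem A) X p ∧ Decides (Mem B) Y p ∧ p ∈ G X Y}

theorem rel_of_mem {G : Set (K κ) → Set (K κ) → Set P} {A B : SetName P κ}
    {X Y : Set (K κ)} {p : P} (hA : Decides (Mem A) X p) (hB : Decides (Mem B) Y p)
    (h : p ∈ G X Y) : p ∈ Rel (relOf G) A B := by
  refine mem_fex_of_mem A (down_fex _) (mem_fex_of_mem B
    (down_fand (down_meets _) (down_fand (down_Same _ _) (down_Same _ _))) ⟨?_, ?_, ?_⟩)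
  · exact meets_of_mem ⟨X, Y, hA, hB, h⟩
  · exact same_refl _ _
  · exact same_refl _ _

theorem exists_of_rel {G : Set (K κ) → Set (K κ) → Set P} (hG : ∀ X Y, Down (G X Y))
    {A B : SetName P κ} {X Y : Set (K κ)} {p : P} (hA : Decides (Mem A) X p)
    (hB : Decides (Mem B) Y p) (h : p ∈ Rel (relOf G) A B) : ∃ q ≤ p, q ∈ G X Y := by
  obtain ⟨r, hr, A', hA'⟩ := mem_fex.1 h p le_rfl
  obtain ⟨s, hs, B', hB'⟩ := mem_fex.1 hA' r le_rfl
  obtain ⟨h1, h2, h3⟩ := hB'
  obtain ⟨t, ht, u, ⟨X', Y', hu1, hu2, hu3⟩, htu⟩ := h1 s le_rfl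
  have hts : t ≤ p := ht.trans (hs.trans hr)
  have e1 : X = X' := same_eq (down_Same _ _ _ h2 _ ht) (hA.mono (down_Mem A) hts)
    (hu1.mono (down_Mem A') htu)
  have e2 : Y = Y' := same_eq (down_Same _ _ _ h3 _ ht) (hB.mono (down_Mem B) hts)
    (hu2.mono (down_Mem B') htu)
  subst e1 e2
  exact ⟨t, hts, hG _ _ _ hu3 _ htu⟩

end Pool.Agent.H65R3.Gen
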