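import Mathlib
import Pool.Agent.H65R3.Gen
import Pool.Agent.H65R3.CondP

/-!
# The generic automorphism
-/

namespace Pool.Agent.H65R3.Aut

open Cardinal Set Filter Forc Data RProd CondP Lang Gen

variable {κ : Cardinal.{0}}

/-- The forcing notion. -/
abbrev Q (L : Lev κ) : Type := RP fun n => Cond {x : K κ // L.lev x = n} (L.μ n)

theorem distr (L : Lev κ) : Distr (Q L) κ := fun D hD p0 hd =>
  distrib L (fun n => Cond {x : K κ // L.lev x = n} (L.μ n))
    (fun n => chainClosed (L.aleph0_le n)) D hD p0 hd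

/-- trace on a level -/
def tr (L : Lev κ) (n : ℕ) (X : Set (K κ)) : Set {x : K κ // L.lev x = n} := {x | x.1 ∈ X}

/-- `p` puts the pair `X`, `Y` into the generic relation. -/
def G (L : Lev κ) (X Y : Set (K κ)) : Set (Q L) :=
  {p | ∀ᶠ n in atTop, tr L n X ∈ (p n).A ∧ tr L n Y = img (p n) (tr L n X)}

theorem down_G (L : Lev κ) (X Y : Set (K κ)) : Down (G L X Y) := by
  intro p hp q hq
  filter_upwards [hp, rp_le_iff.1 hq] with n hn hqn
  refine ⟨(CondP.le_def.1 hqn).2.2.1 hn.1, ?_⟩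
  rw [img_eq hqn hn.1]
  exact hn.2

/-- the permutation given by a condition -/
def fw (L : Lev κ) (p : Q L) (x : K κ) : K κ := ((p (L.lev x)).F ⟨x, rfl⟩).1

/-- the inverse of the permutation given by a condition -/
def bw (L : Lev κ) (p : Q L) (x : K κ) : K κ := ((p (L.lev x)).F.symm ⟨x, rfl⟩).1

theorem lev_fw (L : Lev κ) (p : Q L) (x : K κ) : L.lev (fw L p x) = L.lev x :=
  ((p (L.lev x)).F ⟨x, rfl⟩).2

theorem lev_bw (L : Lev κ) (p : Q L) (x : K κ) : L.lev (bw L p x) = L.lev x :=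
  ((p (L.lev x)).F.symm ⟨x, rfl⟩).2

theorem fw_eq (L : Lev κ) (p : Q L) (n : ℕ) (x : {x : K κ // L.lev x = n}) :
    fw L p x.1 = ((p n).F x).1 := by
  obtain ⟨x, rfl⟩ := x
  rfl

theorem bw_eq (L : Lev κ) (p : Q L) (n : ℕ) (x : {x : K κ // L.lev x = n}) :
    bw L p x.1 = ((p n).F.symm x).1 := by
  obtain ⟨x, rfl⟩ := x
  rfl

theorem bw_fw (L : Lev κ) (p : Q L) (x : K κ) : bw L p (fw L p x) = x := by
  have := bw_eq L p (L.lev x) ((p (L.lev x)).F ⟨x, rfl⟩)
  rw [Equiv.symm_apply_apply] at this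
  exact this

theorem fw_bw (L : Lev κ) (p : Q L) (x : K κ) : fw L p (bw L p x) = x := by
  have := fw_eq L p (L.lev x) ((p (L.lev x)).F.symm ⟨x, rfl⟩)
  rw [Equiv.apply_symm_apply] at this
  exact this

theorem fw_inj (L : Lev κ) (p : Q L) : Function.Injective (fw L p) :=
  Function.LeftInverse.injective (bw_fw L p)

theorem bw_inj (L : Lev κ) (p : Q L) : Function.Injective (bw L p) :=
  Function.LeftInverse.injective (fw_bw L p)

theorem mem_img_tr (L : Lev κ) (p : Q L) (n : ℕ) (X : Set (K κ))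
    (y : {x : K κ // L.lev x = n}) : y ∈ img (p n) (tr L n X) ↔ bw L p y.1 ∈ X := by
  rw [bw_eq]
  rfl

theorem mem_G_iff (L : Lev κ) {X Y : Set (K κ)} {p : Q L} (hp : p ∈ G L X Y) :
    ∃ N, ∀ y, N ≤ L.lev y → (y ∈ Y ↔ bw L p y ∈ X) := by
  obtain ⟨N, hN⟩ := eventually_atTop.1 hp
  refine ⟨N, fun y hy => ?_⟩
  have h := (hN _ hy).2
  have h2 : (⟨y, rfl⟩ : {x : K κ // L.lev x = L.lev y}) ∈ tr L _ Y ↔
    (⟨y, rfl⟩ : {x : K κ // L.lev x = L.lev y}) ∈ img (p (L.lev y)) (tr L _ X) := by rw [h]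
  rw [mem_img_tr] at h2
  exact h2

theorem small_union (L : Lev κ) (hκ : ℵ₀ ≤ κ) (N : ℕ) {S : Set (K κ)} (hS : #S < κ) :
    #({x | L.lev x ≤ N} ∪ S : Set (K κ)) < κ :=
  (mk_union_le _ _).trans_lt (add_lt_of_lt hκ (L.small N) hS)

theorem small_of_small (L : Lev κ) (hκ : ℵ₀ ≤ κ) {X Y X' Y' : Set (K κ)} {p : Q L}
    (h : p ∈ G L X Y) (h' : p ∈ G L X' Y') :
    #(X \ X' : Set (K κ)) < κ ↔ #(Y \ Y' : Set (K κ)) < κ := by
  obtain ⟨N, hN⟩ := mem_G_iff L h
  obtain ⟨N', hN'⟩ := mem_G_iff L h'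
  constructor
  · intro hs
    have hsub : Y \ Y' ⊆ {x | L.lev x ≤ max N N'} ∪ (bw L p ⁻¹' (X \ X')) := by
      rintro y ⟨hy, hy'⟩
      by_cases hl : L.lev y ≤ max N N'
      · left; exact hl
      · right
        rw [not_le] at hl
        exact ⟨(hN y ((le_max_left _ _).trans hl.le)).1 hy, fun hb =>
          hy' ((hN' y ((le_max_right _ _).trans hl.le)).2 hb)⟩
    refine (mk_le_mk_of_subset hsub).trans_lt (small_union L hκ _ ?_)
    exact (mk_preimage_of_injective _ _ (bw_inj L p)).trans_lt hs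
  · intro hs
    have hsub : X \ X' ⊆ {x | L.lev x ≤ max N N'} ∪ (fw L p ⁻¹' (Y \ Y')) := by
      rintro x ⟨hx, hx'⟩
      by_cases hl : L.lev x ≤ max N N'
      · left; exact hl
      · right
        rw [not_le] at hl
        have e := lev_fw L p x
        refine ⟨(hN _ ?_).2 ?_, fun hb => hx' ?_⟩
        · rw [e]; exact (le_max_left _ _).trans hl.le
        · rw [bw_fw]; exact hx
        · have := (hN' _ ?_).1 hb
          · rwa [bw_fw] at this
          · rw [e]; exact (le_max_right _ _).trans hl.le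
    refine (mk_le_mk_of_subset hsub).trans_lt (small_union L hκ _ ?_)
    exact (mk_preimage_of_injective _ _ (fw_inj L p)).trans_lt hs

/-- add all traces of a set to a condition -/
def addX (L : Lev κ) (p : Q L) (X : Set (K κ)) : Q L :=
  fun n => addA (L.aleph0_le n) (p n) (tr L n X)

theorem addX_le (L : Lev κ) (p : Q L) (X : Set (K κ)) : addX L p X ≤ p :=
  rp_le_of_forall fun n => addA_le (L.aleph0_le n) (p n) (tr L n X)

theorem addX_mem (L : Lev κ) (p : Q L) {X Y : Set (K κ)} (h : ∀ y, y ∈ Y ↔ bw L p y ∈ X) :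
    addX L p X ∈ G L X Y := by
  refine Eventually.of_forall fun n => ⟨mem_addA _ _ _, ?_⟩
  ext y
  have h1 := mem_img_tr L (addX L p X) n X y
  rw [h1]
  exact h y.1

theorem isAut (L : Lev κ) (hκ : ℵ₀ ≤ κ) (p : Q L) : p ∈ IsAut (relOf (G L)) := by
  have hD := distr L
  refine ⟨⟨?_, ?_⟩, ?_⟩
  · intro A
    rw [mem_fex]
    intro q hq
    obtain ⟨r, hr, X, hX⟩ := exists_decides hD (Mem A) (down_Mem A) q
    refine ⟨addX L r X, (addX_le L r X).trans hr, chk _ {y | bw L r y ∈ X}, ?_⟩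
    exact rel_of_mem (hX.mono (down_Mem A) (addX_le L r X)) (decides_chk _ _)
      (addX_mem L r fun y => Iff.rfl)
  · intro B
    rw [mem_fex]
    intro q hq
    obtain ⟨r, hr, Y, hY⟩ := exists_decides hD (Mem B) (down_Mem B) q
    refine ⟨addX L r {x | fw L r x ∈ Y}, (addX_le L r _).trans hr, chk _ {x | fw L r x ∈ Y}, ?_⟩
    refine rel_of_mem (decides_chk _ _) (hY.mono (down_Mem B) (addX_le L r _))
      (addX_mem L r fun y => ?_)
    show y ∈ Y ↔ fw L r (bw L r y) ∈ Y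
    rw [fw_bw]
  · intro A A' B B'
    rw [mem_fimp]
    rintro q hq ⟨h1, h2⟩
    obtain ⟨q1, hq1, X, hX⟩ := exists_decides hD (Mem A) (down_Mem A) q
    obtain ⟨q2, hq2, X', hX'⟩ := exists_decides hD (Mem A') (down_Mem A') q1
    obtain ⟨q3, hq3, Y, hY⟩ := exists_decides hD (Mem B) (down_Mem B) q2
    obtain ⟨q4, hq4, Y', hY'⟩ := exists_decides hD (Mem B') (down_Mem B') q3
    have e1 : q4 ≤ q1 := hq4.trans (hq3.trans hq2)
    obtain ⟨q5, hq5, hG⟩ := exists_of_rel (down_G L) (hX.mono (down_Mem A) e1)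
      (hY.mono (down_Mem B) hq4) (down_Rel _ _ _ _ h1 _ (e1.trans hq1))
    obtain ⟨q6, hq6, hG'⟩ := exists_of_rel (down_G L)
      (hX'.mono (down_Mem A') (hq5.trans (hq4.trans hq3)))
      (hY'.mono (down_Mem B') hq5)
      (down_Rel _ _ _ _ h2 _ (hq5.trans (e1.trans hq1)))
    have hle : q6 ≤ q := hq6.trans (hq5.trans (e1.trans hq1))
    have hle4 : q6 ≤ q4 := hq6.trans hq5
    refine ⟨q6, hle, ?_⟩
    have key : ∀ s ≤ q6, (s ∈ AlmostSub (Mem A) (Mem A') ↔ s ∈ AlmostSub (Mem B) (Mem B')) := by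
      intro s hs
      rw [almostSub_iff hD (down_Mem A) (down_Mem A')
        (hX.mono (down_Mem A) (hs.trans (hle4.trans e1)))
        (hX'.mono (down_Mem A') (hs.trans (hle4.trans (hq4.trans hq3)))),
        almostSub_iff hD (down_Mem B) (down_Mem B')
        (hY.mono (down_Mem B) (hs.trans (hle4.trans hq4)))
        (hY'.mono (down_Mem B') (hs.trans hle4))]
      exact small_of_small L hκ (down_G L _ _ _ hG _ (hs.trans hq6)) (down_G L _ _ _ hG' _ hs)
    exact ⟨mem_fimp.2 fun s hs h => ⟨s, le_rfl, (key s hs).1 h⟩,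
      mem_fimp.2 fun s hs h => ⟨s, le_rfl, (key s hs).2 h⟩⟩

theorem decides_Pre {P : Type} [Preorder P] {E : K κ → K κ → Set P} {p : P} (hE : p ∈ IsFun E)
    {f : K κ → K κ} (hf : ∀ x, p ∈ meets (E x (f x))) {A : SetName P κ} {X : Set (K κ)}
    (hA : Decides (Mem A) X p) : Decides (Pre E A) (f ⁻¹' X) p := by
  intro x
  constructor
  · intro hx
    exact mem_fex_of_mem (f x) (down_fand (down_meets _) (down_Mem A _))
      ⟨hf x, (hA _).1 hx⟩
  · intro hx q hq hq'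
    obtain ⟨r, hr, y, hy1, hy2⟩ := mem_fex.1 hq' q le_rfl
    have hrp : r ≤ p := hr.trans hq
    have hxy : f x = y := IsFun.unique (down_IsFun _ _ hE _ hrp)
      (down_meets _ _ (hf x) _ hrp) hy1
    have : y ∈ X := (hA.mono (down_Mem A) hrp).mem_iff.1 hy2
    rw [← hxy] at this
    exact hx this

theorem not_trivial (L : Lev κ) (hκ : ℵ₀ ≤ κ) (p : Q L) : p ∉ IsTrivial (relOf (G L)) := by
  classical
  have hD := distr L
  intro hp
  obtain ⟨r, hr, E, hE, hE'⟩ := mem_fex.1 hp p le_rfl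
  obtain ⟨s, hs, f, hf⟩ := noNewFunctions hD _ E r hE
  have hι : ∀ n, #((L.μ n).out) = L.μ n := fun n => mk_out _
  choose g hg hg' using fun n => exists_pairs (L.aleph0_le n) (L.big n) (s n) (L.μ n).out (hι n)
  let A : Set (K κ) := {x | ∃ n i, (g n (Sum.inl i)).1 = x}
  have hA : ∀ n (x : {x : K κ // L.lev x = n}), x ∈ tr L n A ↔ ∃ i, g n (Sum.inl i) = x := by
    intro n x
    constructor
    · rintro ⟨m, i, h⟩
      have h1 := (g m (Sum.inl i)).2
      rw [h, x.2] at h1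
      subst h1
      exact ⟨i, Subtype.ext h⟩
    · rintro ⟨i, rfl⟩
      exact ⟨n, i, rfl⟩
  choose t ht htA htF htF' using fun n => exists_swap (L.aleph0_le n) (s n) (hι n) (g n) (hg n)
    (hg' n) {i | f (g n (Sum.inl i)).1 ∈ A} (tr L n A)
  let u : Q L := t
  have hus : u ≤ s := rp_le_of_forall ht
  let B : Set (K κ) := {y | bw L u y ∈ A}
  have huG : u ∈ G L A B := by
    refine Eventually.of_forall fun n => ⟨htA n, ?_⟩
    ext y
    exact (mem_img_tr L u n A y).symm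
  have hrel : u ∈ Rel (relOf (G L)) (chk _ A) (chk _ B) :=
    rel_of_mem (decides_chk _ _) (decides_chk _ _) huG
  obtain ⟨v, hv, hv1, hv2⟩ := mem_fimp.1 (hE' (chk _ A) (chk _ B)) u (hus.trans hs) hrel
  have hvs : v ≤ s := hv.trans hus
  have hPre : Decides (Pre E (chk _ A)) (f ⁻¹' A) v :=
    decides_Pre (down_IsFun _ _ hE _ (hvs.trans hs))
      (fun x => down_meets _ _ (hf x) _ hvs) (decides_chk _ _)
  have hdP : ∀ x, Down (Pre E (chk (Q L) A) x) := fun x => down_fex _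
  rw [almostSub_iff hD (down_Mem _) hdP (decides_chk _ _) hPre] at hv1
  rw [almostSub_iff hD hdP (down_Mem _) hPre (decides_chk _ _)] at hv2
  have hun : #((B \ f ⁻¹' A) ∪ (f ⁻¹' A \ B) : Set (K κ)) < κ :=
    (mk_union_le _ _).trans_lt (add_lt_of_lt hκ hv1 hv2)
  have hmem : ∀ n i, (g n (Sum.inl i)).1 ∈ (B \ f ⁻¹' A) ∪ (f ⁻¹' A \ B) := by
    intro n i
    have hbw := bw_eq L u n (g n (Sum.inl i))
    by_cases hi : f (g n (Sum.inl i)).1 ∈ A
    · right
      refine ⟨hi, ?_⟩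
      show ¬ bw L u (g n (Sum.inl i)).1 ∈ A
      rw [hbw]
      have h1 : (u n).F.symm (g n (Sum.inl i)) = g n (Sum.inr i) := by
        rw [Equiv.symm_apply_eq]
        exact (htF n i hi).symm
      rw [h1]
      intro h2
      obtain ⟨j, hj⟩ := (hA n (g n (Sum.inr i))).1 h2
      exact absurd ((g n).injective hj) (by simp)
    · left
      refine ⟨?_, hi⟩
      show bw L u (g n (Sum.inl i)).1 ∈ A
      rw [hbw]
      have h1 : (u n).F.symm (g n (Sum.inl i)) = g n (Sum.inl i) := by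
        rw [Equiv.symm_apply_eq]
        exact (htF' n i hi).symm
      rw [h1]
      exact (hA n (g n (Sum.inl i))).2 ⟨i, rfl⟩
  have hge : ∀ n, L.μ n ≤ #((B \ f ⁻¹' A) ∪ (f ⁻¹' A \ B) : Set (K κ)) := by
    intro n
    rw [← hι n]
    let w : (L.μ n).out → ((B \ f ⁻¹' A) ∪ (f ⁻¹' A \ B) : Set (K κ)) :=
      fun i => ⟨(g n (Sum.inl i)).1, hmem n i⟩
    refine mk_le_of_injective (f := w) ?_
    intro i j hij
    have h1 : (w i).1 = (w j).1 := congrArg Subtype.val hij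
    exact Sum.inl_injective ((g n).injective (Subtype.ext h1))
  -- a contradiction with the smallness
  obtain ⟨n, hn⟩ := L.cof _ hun
  have h1 : 2 ^ L.μ n ≤ #{x : K κ | L.lev x ≤ n} := by
    refine (L.big n).le.trans (mk_le_mk_of_subset fun x hx => ?_)
    exact le_of_eq hx
  obtain ⟨m, hm⟩ := L.cof _ ((h1.trans_lt (L.small n)))
  exact absurd ((hge m).trans hn) (not_le.2 ((cantor _).trans_le hm))

theorem hasNontrivialAut (L : Lev κ) (hκ : ℵ₀ ≤ κ) (p : Q L) : p ∈ HasNontrivialAut (Q L) κ :=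
  mem_fex.2 fun q _ => ⟨q, le_rfl, relOf (G L), isAut L hκ q, fun r _ => not_trivial L hκ r⟩

theorem nonempty_Q (L : Lev κ) : Nonempty (Q L) :=
  ⟨fun _ => { F := 1, S := ∅, A := ∅, hS := by simp, hA := by simp, fix := fun _ _ => rfl }⟩

end Pool.Agent.H65R3.Aut
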